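import Pool.Agent.H269Z.HS.Main

set_option autoImplicit false

open Pool.Agent.H269Z.HS

namespace Pool.Agent.Results.MP_a699c4_gt.Bubble

/-- There are a smooth Riemannian metric `g` on `ℝ³`, within a factor two of the Euclidean metric
(so complete), an open set `V` containing no closed geodesic of `g`, and a non-constant harmonic
map from the round two-sphere to `(ℝ³, g)` with image in `V`. -/
theorem result : ∃ g : Rn 3 → Rn 3 → Rn 3 → ℝ, IsRiemMetric g ∧
    (∀ x v, ‖v‖ ^ 2 / 2 ≤ g x v v ∧ g x v v ≤ 2 * ‖v‖ ^ 2) ∧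
    ∃ V : Set (Rn 3), IsOpen V ∧ (¬ ∃ γ, IsClosedGeodesicIn g V γ) ∧
      ∃ φ : Sph 2 → Rn 3, IsHarmonicSphere g φ ∧ (∃ p q, φ p ≠ φ q) ∧ ∀ p, φ p ∈ V :=
  main

end Pool.Agent.Results.MP_a699c4_gt.Bubble
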